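import Pool.Agent.SKQ.Kit

/-!
# SKQ, row CLW: almost constancy by a pigeonhole argument
-/

set_option autoImplicit false

namespace Pool.Agent.SKQ.H82

open Metric Set Filter Topology MeasureTheory
open Helper22QC

variable {n : ℕ}

theorem ball_sub {c : E n} (hc : c ∈ closedBall (0 : E n) 1) {ρ R : ℝ} (h : ρ + 1 < R) :
    closedBall c ρ ⊆ ball (0 : E n) R := by
  intro y hy
  rw [mem_closedBall, dist_eq_norm] at hy
  rw [mem_closedBall, dist_zero_right] at hc
  rw [mem_ball, dist_zero_right]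
  calc ‖y‖ = ‖(y - c) + c‖ := by rw [sub_add_cancel]
    _ ≤ ‖y - c‖ + ‖c‖ := norm_add_le _ _
    _ < R := by linarith

/-- a priori bound for the oscillation -/
theorem apriori {H R s : ℝ} (hH : 1 ≤ H) {f : E n → E n} {F : E n → Mt n} {c : E n}
    (hL : Loc R 2 f F) (hs : 0 < s) (hb : closedBall c (4 * s) ⊆ ball 0 R)
    (hQ : ∀ y ∈ ann c s (4 * s), ∀ y' ∈ ann c s (4 * s), ‖f y - f c‖ ≤ H * ‖f y' - f c‖) :
    ∀ y ∈ ann c s (2 * s), ∀ y' ∈ ann c s (2 * s),
      |wf f c y - wf f c y'| ≤ Real.log H + Real.log 4 := by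
  have hc : c ∈ ball (0 : E n) R := hb (mem_closedBall_self (by positivity))
  have key : ∀ y ∈ ann c s (2 * s), ∀ y' ∈ ann c s (2 * s),
      wf f c y - wf f c y' ≤ Real.log H + Real.log 4 := by
    intro y hy y' hy'
    have h1 : ∀ z ∈ ann c s (2 * s), z ∈ ann c s (4 * s) ∧ 0 < ‖f z - f c‖ ∧ 0 < ‖z - c‖ := by
      intro z hz
      have hz0 : 0 < ‖z - c‖ := lt_of_lt_of_le hs hz.1
      have hz4 : z ∈ ann c s (4 * s) := ⟨hz.1, by linarith [hz.2]⟩
      have hzR : z ∈ ball (0 : E n) R := hb (ann_subset_closedBall c s (4 * s) hz4)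
      refine ⟨hz4, norm_pos_iff.2 (hL.ne hzR hc fun h => ?_), hz0⟩
      rw [h, sub_self, norm_zero] at hz0
      exact lt_irrefl _ hz0
    obtain ⟨a1, a2, a3⟩ := h1 y hy
    obtain ⟨b1, b2, b3⟩ := h1 y' hy'
    have e1 : Real.log ‖f y - f c‖ ≤ Real.log H + Real.log ‖f y' - f c‖ := by
      rw [← Real.log_mul (by linarith) b2.ne']
      exact Real.log_le_log a2 (hQ y a1 y' b1)
    have e2 : Real.log ‖y' - c‖ ≤ Real.log 4 + Real.log ‖y - c‖ := by
      rw [← Real.log_mul (by norm_num) a3.ne']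
      refine Real.log_le_log b3 ?_
      have := hy'.2
      have := hy.1
      linarith
    unfold wf
    linarith
  intro y hy y' hy'
  rw [abs_le]
  exact ⟨by linarith [key y' hy' y hy], key y hy y' hy'⟩

/-- pigeonhole -/
theorem pigeon {c : E n} {g : E n → ℝ} (hg : ∀ y, 0 ≤ g y) {A : Set (E n)}
    (hint : IntegrableOn g A) (N : ℕ) (hN : 0 < N) (B : ℕ → Set (E n))
    (hB : ∀ j < N, B j ⊆ A) (hm : ∀ j < N, MeasurableSet (B j))
    (hd : ∀ i < N, ∀ j < N, i ≠ j → Disjoint (B i) (B j)) {T : ℝ}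
    (hT : ∫ y in A, g y ≤ T) : ∃ j < N, ∫ y in B j, g y ≤ T / N := by
  by_contra hcon
  push Not at hcon
  have h1 : ∑ j ∈ Finset.range N, ∫ y in B j, g y = ∫ y in ⋃ j ∈ Finset.range N, B j, g y := by
    rw [integral_biUnion_finset]
    · intro j hj; exact hm j (Finset.mem_range.1 hj)
    · intro i hi j hj hij
      exact hd i (Finset.mem_range.1 (Finset.mem_coe.1 hi)) j
        (Finset.mem_range.1 (Finset.mem_coe.1 hj)) hij
    · intro j hj
      exact hint.mono_set (hB j (Finset.mem_range.1 hj))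
  have h2 : ∫ y in ⋃ j ∈ Finset.range N, B j, g y ≤ ∫ y in A, g y := by
    refine setIntegral_mono_set hint (Eventually.of_forall hg) (HasSubset.Subset.eventuallyLE ?_)
    exact iUnion₂_subset fun j hj => hB j (Finset.mem_range.1 hj)
  have hN' : (0 : ℝ) < N := by exact_mod_cast hN
  have h3 : ∑ _j ∈ Finset.range N, T / N < ∑ j ∈ Finset.range N, ∫ y in B j, g y :=
    Finset.sum_lt_sum_of_nonempty (Finset.nonempty_range_iff.2 hN.ne')
      fun j hj => hcon j (Finset.mem_range.1 hj)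
  rw [Finset.sum_const, Finset.card_range, nsmul_eq_mul, mul_div_cancel₀ _ hN'.ne'] at h3
  linarith

theorem ann_mono {c : E n} {a b a' b' : ℝ} (ha : a' ≤ a) (hb : b ≤ b') : ann c a b ⊆ ann c a' b' :=
  fun _ hy => ⟨ha.trans hy.1, hy.2.trans hb⟩

/-- CLW -/
theorem clw (hES1 : Pool.Agent.SKQ.ES1Stmt) (hOSW : Pool.Agent.SKQ.OSWStmt)
    (hQSD : Pool.Agent.SKQ.QSDStmt) : Pool.Agent.SKQ.CLWStmt := by
  intro n θ η hn hθ hθ1 hη
  obtain ⟨δ₁, hδ₁, h₁⟩ := hOSW n η (2 / θ) hn hη (by rw [le_div_iff₀ hθ]; linarith)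
  obtain ⟨C, hC, hES⟩ := hES1 n hn
  obtain ⟨H, hH, hQ⟩ := hQSD n hn
  have ho : 0 < δ₁ / (8 * C) := by positivity
  obtain ⟨δ₂, hδ₂, h₂⟩ := hOSW n (δ₁ / (8 * C)) 2 hn ho (by norm_num)
  have hO : 0 ≤ Real.log H + Real.log 4 :=
    add_nonneg (Real.log_nonneg hH) (Real.log_nonneg (by norm_num))
  set O := Real.log H + Real.log 4 with hOdef
  obtain ⟨N, hN⟩ := exists_nat_gt ((2 * C * O + 1) / δ₂)
  have hN0' : (0 : ℝ) < N := lt_of_le_of_lt (by positivity) hN
  have hN0 : 0 < N := by exact_mod_cast hN0'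
  have hNδ : (2 * C * O + 1) / N ≤ δ₂ := by
    rw [div_le_iff₀ hN0']
    rw [div_lt_iff₀ hδ₂] at hN
    linarith
  have hn0 : (2 : ℝ) ≤ n := by exact_mod_cast hn
  have h16 : ∀ k : ℕ, (1 : ℝ) ≤ 16 ^ k := fun k => one_le_pow₀ (by norm_num)
  have hS1 : 0 < θ / 16 ^ (N + 3) := by positivity
  have hS2 : (0 : ℝ) < 16 ^ (N + 3) := by positivity
  have hratio : 1 ≤ (16 : ℝ) ^ (N + 3) / (θ / 16 ^ (N + 3)) := by
    rw [le_div_iff₀ hS1, one_mul, div_le_iff₀ hS2]
    nlinarith [h16 (N + 3)]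
  have hlogT : 0 ≤ Real.log ((16 : ℝ) ^ (N + 3) / (θ / 16 ^ (N + 3))) := Real.log_nonneg hratio
  set T := 1 + Real.log ((16 : ℝ) ^ (N + 3) / (θ / 16 ^ (N + 3))) with hT
  have hT0 : 0 < T := by linarith
  have hη' : 0 < min 1 (δ₁ / 4) / T := div_pos (lt_min one_pos (by positivity)) hT0
  obtain ⟨ε, hε, hε1, hE⟩ := hES (min 1 (δ₁ / 4) / T) hη'
  have hηT : min 1 (δ₁ / 4) / T * T = min 1 (δ₁ / 4) := div_mul_cancel₀ _ hT0.ne'
  refine ⟨ε, 400 * n * 16 ^ (N + 3) + 12, hε, hε1, by nlinarith [h16 (N + 3)], ?_⟩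
  intro f F hL c hc
  have hL2 : Loc (400 * n * 16 ^ (N + 3) + 12) 2 f F := hL.mono (by linarith) (by linarith)
  have hball : ∀ ρ : ℝ, ρ ≤ 400 * n * 16 ^ (N + 3) →
      closedBall c ρ ⊆ ball (0 : E n) (400 * n * 16 ^ (N + 3) + 12) :=
    fun ρ hρ => ball_sub hc (by linarith)
  have hosc : ∀ s : ℝ, 0 < s → s ≤ 16 ^ (N + 3) →
      ∀ y ∈ ann c s (2 * s), ∀ y' ∈ ann c s (2 * s), |wf f c y - wf f c y'| ≤ O := by
    intro s hs hs2
    refine apriori hH hL2 hs (hball _ ?_) (hQ _ s f F c hL2 hs (hball _ ?_))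
    · nlinarith
    · nlinarith
  -- the total energy
  have h16N : (16 : ℝ) ≤ 16 ^ (N + 3) := by
    have := pow_le_pow_right₀ (show (1 : ℝ) ≤ 16 by norm_num) (show 1 ≤ N + 3 by omega)
    simpa using this
  obtain ⟨i1, e1⟩ := hE _ (θ / 16 ^ (N + 3)) (16 ^ (N + 3)) O O f F c hL hS1 (by
      have : θ / 16 ^ (N + 3) ≤ 1 := by
        rw [div_le_one hS2]
        linarith [h16 (N + 3)]
      linarith) (hball _ le_rfl)
    (hosc _ hS1 (by
      rw [div_le_iff₀ hS2]
      nlinarith [h16 (N + 3)])) (hosc _ hS2 le_rfl)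
  have e2 : ∫ y in ann c (2 * (θ / 16 ^ (N + 3))) (16 ^ (N + 3)), ‖Wf f F c y‖ ^ n ≤
      2 * C * O + 1 := by
    have : min 1 (δ₁ / 4) / T * (1 + Real.log ((16 : ℝ) ^ (N + 3) / (θ / 16 ^ (N + 3)))) ≤ 1 := by
      rw [← hT, hηT]
      exact min_le_left _ _
    linarith
  have hW : ∀ y, 0 ≤ ‖Wf f F c y‖ ^ n := fun y => by positivity
  have hp16 : ∀ k l : ℕ, k ≤ l → (16 : ℝ) ^ k ≤ 16 ^ l := fun k l h =>
    pow_le_pow_right₀ (by norm_num) h
  -- inner scale
  obtain ⟨j, hj, hj2⟩ := pigeon (c := c) hW i1 N hN0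
    (fun j => ann c (θ / 16 ^ (j + 3) / 2) (2 * (2 * (θ / 16 ^ (j + 3)))))
    (by
      intro j hj
      refine ann_mono ?_ ?_
      · have h3 : (16 : ℝ) ^ (N + 3) = 16 ^ (N - j) * 16 ^ (j + 3) := by
          rw [← pow_add]
          congr 1
          omega
        have h4 : (16 : ℝ) ≤ 16 ^ (N - j) := by
          have := hp16 1 (N - j) (by omega)
          simpa using this
        rw [h3, ← mul_div_assoc, div_le_div_iff₀ (by positivity) (by norm_num),
          div_mul_eq_mul_div, le_div_iff₀ (by positivity)]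
        have h5 : (0 : ℝ) < 16 ^ (j + 3) := by positivity
        nlinarith [mul_pos hθ h5]
      · have h5 : θ / 16 ^ (j + 3) ≤ 1 := by
          rw [div_le_one (by positivity)]
          linarith [h16 (j + 3)]
        have h6 : (16 : ℝ) ≤ 16 ^ (N + 3) := by
          have := hp16 1 (N + 3) (by omega)
          simpa using this
        linarith)
    (fun j _ => measurableSet_ann _ _ _)
    (by
      have hlt : ∀ i j : ℕ, i < j →
          Disjoint (ann c (θ / 16 ^ (i + 3) / 2) (2 * (2 * (θ / 16 ^ (i + 3)))))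
            (ann c (θ / 16 ^ (j + 3) / 2) (2 * (2 * (θ / 16 ^ (j + 3))))) := by
        intro i j hij
        rw [Set.disjoint_left]
        intro y hy hy'
        have h3 : θ / 16 ^ (j + 3) ≤ θ / 16 ^ (i + 3) / 16 := by
          rw [div_div, ← pow_succ]
          exact div_le_div_of_nonneg_left hθ.le (by positivity) (hp16 _ _ (by omega))
        have h4 : 0 < θ / 16 ^ (i + 3) := by positivity
        have := hy.1
        have := hy'.2
        linarith
      intro i _ j _ hij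
      rcases Nat.lt_or_gt_of_ne hij with h | h
      · exact hlt i j h
      · exact (hlt j i h).symm) e2
  -- outer scale
  obtain ⟨k, hk, hk2⟩ := pigeon (c := c) hW i1 N hN0
    (fun j => ann c ((16 : ℝ) ^ (j + 1) / 2) (2 * (2 * 16 ^ (j + 1))))
    (by
      intro j hj
      refine ann_mono ?_ ?_
      · have h5 : 2 * (θ / 16 ^ (N + 3)) ≤ 2 := by
          have : θ / 16 ^ (N + 3) ≤ 1 := by
            rw [div_le_one (by positivity)]
            linarith [h16 (N + 3)]
          linarith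
        have h6 : (16 : ℝ) ≤ 16 ^ (j + 1) := by
          have := hp16 1 (j + 1) (by omega)
          simpa using this
        linarith
      · have h7 : (16 : ℝ) ^ (N + 3) = 16 ^ (N - j + 2) * 16 ^ (j + 1) := by
          rw [← pow_add]
          congr 1
          omega
        have h8 : (16 : ℝ) ≤ 16 ^ (N - j + 2) := by
          have := hp16 1 (N - j + 2) (by omega)
          simpa using this
        have h9 : (0 : ℝ) < 16 ^ (j + 1) := by positivity
        rw [h7]
        nlinarith)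
    (fun j _ => measurableSet_ann _ _ _)
    (by
      have hlt : ∀ i j : ℕ, i < j →
          Disjoint (ann c ((16 : ℝ) ^ (i + 1) / 2) (2 * (2 * 16 ^ (i + 1))))
            (ann c ((16 : ℝ) ^ (j + 1) / 2) (2 * (2 * 16 ^ (j + 1)))) := by
        intro i j hij
        rw [Set.disjoint_left]
        intro y hy hy'
        have h3 : (16 : ℝ) * 16 ^ (i + 1) ≤ 16 ^ (j + 1) := by
          rw [← pow_succ']
          exact hp16 _ _ (by omega)
        have h4 : (0 : ℝ) < 16 ^ (i + 1) := by positivity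
        have := hy.2
        have := hy'.1
        linarith
      intro i _ j _ hij
      rcases Nat.lt_or_gt_of_ne hij with h | h
      · exact hlt i j h
      · exact (hlt j i h).symm) e2
  -- bounds for the scales
  have hs0 : 0 < θ / 16 ^ (j + 3) := by positivity
  have hs1 : θ / 16 ^ (j + 3) ≤ θ / 16 := by
    refine div_le_div_of_nonneg_left hθ.le (by norm_num) ?_
    have := hp16 1 (j + 3) (by omega)
    simpa using this
  have hs'0 : (0 : ℝ) < 16 ^ (k + 1) := by positivity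
  have hs'1 : (16 : ℝ) ≤ 16 ^ (k + 1) := by
    have := hp16 1 (k + 1) (by omega)
    simpa using this
  have hs'2 : (16 : ℝ) ^ (k + 1) ≤ 16 ^ (N + 3) := hp16 _ _ (by omega)
  have hs'3 : (16 : ℝ) * 16 ^ (k + 1) ≤ 16 ^ (N + 3) := by
    rw [← pow_succ']
    exact hp16 _ _ (by omega)
  have o1 := h₂ _ _ (θ / 16 ^ (j + 3)) (2 * (θ / 16 ^ (j + 3))) f F c hL hs0 (by linarith)
    le_rfl (hball _ (by nlinarith [h16 (N + 3)])) (i1.mono_set (by
      refine ann_mono ?_ ?_
      · have h3 : (16 : ℝ) ^ (N + 3) = 16 ^ (N - j) * 16 ^ (j + 3) := by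
          rw [← pow_add]
          congr 1
          omega
        have h4 : (16 : ℝ) ≤ 16 ^ (N - j) := by
          have := hp16 1 (N - j) (by omega)
          simpa using this
        rw [h3, ← mul_div_assoc, div_le_div_iff₀ (by positivity) (by norm_num),
          div_mul_eq_mul_div, le_div_iff₀ (by positivity)]
        have h5 : (0 : ℝ) < 16 ^ (j + 3) := by positivity
        nlinarith [mul_pos hθ h5]
      · linarith)) (hj2.trans hNδ)
  have o2 := h₂ _ _ ((16 : ℝ) ^ (k + 1)) (2 * 16 ^ (k + 1)) f F c hL hs'0 (by linarith)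
    le_rfl (hball _ (by nlinarith)) (i1.mono_set (by
      refine ann_mono ?_ ?_
      · have h5 : 2 * (θ / 16 ^ (N + 3)) ≤ 2 := by
          have : θ / 16 ^ (N + 3) ≤ 1 := by
            rw [div_le_one (by positivity)]
            linarith [h16 (N + 3)]
          linarith
        linarith
      · linarith)) (hk2.trans hNδ)
  obtain ⟨i3, e3⟩ := hE _ (θ / 16 ^ (j + 3)) (16 ^ (k + 1)) (δ₁ / (8 * C)) (δ₁ / (8 * C)) f F c hL
    hs0 (by linarith) (hball _ (by nlinarith)) o1 o2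
  have e4 : ∫ y in ann c (2 * (θ / 16 ^ (j + 3))) (16 ^ (k + 1)), ‖Wf f F c y‖ ^ n ≤ δ₁ := by
    have h3 : Real.log ((16 : ℝ) ^ (k + 1) / (θ / 16 ^ (j + 3))) ≤
        Real.log ((16 : ℝ) ^ (N + 3) / (θ / 16 ^ (N + 3))) := by
      apply Real.log_le_log (by positivity)
      apply div_le_div₀ hS2.le hs'2 hS1
      exact div_le_div_of_nonneg_left hθ.le (by positivity) (hp16 _ _ (by omega))
    have h4 : min 1 (δ₁ / 4) / T * (1 + Real.log ((16 : ℝ) ^ (k + 1) / (θ / 16 ^ (j + 3)))) ≤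
        δ₁ / 4 := by
      calc min 1 (δ₁ / 4) / T * (1 + Real.log ((16 : ℝ) ^ (k + 1) / (θ / 16 ^ (j + 3))))
          ≤ min 1 (δ₁ / 4) / T * T := mul_le_mul_of_nonneg_left (by linarith) hη'.le
        _ = min 1 (δ₁ / 4) := hηT
        _ ≤ δ₁ / 4 := min_le_right _ _
    have h5 : C * (δ₁ / (8 * C) + δ₁ / (8 * C)) = δ₁ / 4 := by
      field_simp
      ring
    linarith
  have hsub : ann c (θ / 2) (2 * 2) ⊆ ann c (2 * (θ / 16 ^ (j + 3))) (16 ^ (k + 1)) :=
    ann_mono (by linarith) (by linarith)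
  refine h₁ _ _ θ 2 f F c hL hθ (by linarith) (by rw [div_mul_cancel₀ _ hθ.ne'])
    (hball _ (by nlinarith [h16 (N + 3)])) (i3.mono_set hsub) ?_
  exact (setIntegral_mono_set i3 (Eventually.of_forall hW) hsub.eventuallyLE).trans e4

end Pool.Agent.SKQ.H82
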