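import Pool.Agent.SKQ.Kit

/-!
# SKQ, row ES1: the energy estimate
-/

set_option autoImplicit false

namespace Pool.Agent.SKQ.H82E

open Metric Set Filter Topology MeasureTheory
open Helper22QC

variable {n : ℕ}

/-- the majorant -/
noncomputable def Tf (f : E n → E n) (F : E n → Mt n) (c y : E n) : ℝ :=
  (‖F y‖ / ‖f y - f c‖) ^ n + (‖y - c‖⁻¹) ^ n

theorem Tf_nonneg (f : E n → E n) (F : E n → Mt n) (c y : E n) : 0 ≤ Tf f F c y := by
  unfold Tf
  positivity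

theorem int_union_le {T : E n → ℝ} (hT : ∀ y, 0 ≤ T y) {A B D : Set (E n)} (hD : D ⊆ A ∪ B)
    (hA : IntegrableOn T A) (hB : IntegrableOn T B) :
    IntegrableOn T D ∧ ∫ y in D, T y ≤ (∫ y in A, T y) + ∫ y in B, T y := by
  have h1 : IntegrableOn T (A ∪ B) := hA.union hB
  refine ⟨h1.mono_set hD, ?_⟩
  have h2 : ∫ y in D, T y ≤ ∫ y in A ∪ B, T y :=
    setIntegral_mono_set h1 (Eventually.of_forall hT) hD.eventuallyLE
  have h3 : ∫ y in A ∪ B, T y ≤ ∫ y, T y ∂(volume.restrict A + volume.restrict B) :=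
    integral_mono_measure (Measure.restrict_union_le A B) (Eventually.of_forall hT)
      (Integrable.add_measure hA hB)
  rw [integral_add_measure hA hB] at h3
  exact h2.trans h3

theorem c_notin_ann {c : E n} {a b : ℝ} (ha : 0 < a) : c ∉ ann c a b := by
  intro h
  have := h.1
  rw [sub_self, norm_zero] at this
  linarith

theorem one {CE s : ℝ} {f : E n → E n} {F : E n → Mt n} {c : E n} (hs : 0 < s)
    (h1 : IntegrableOn (fun y => (‖F y‖ / ‖f y - f c‖) ^ n) (ann c s (4 * s)))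
    (h2 : ∫ y in ann c s (4 * s), (‖F y‖ / ‖f y - f c‖) ^ n ≤ CE) :
    IntegrableOn (Tf f F c) (ann c s (4 * s)) ∧
      ∫ y in ann c s (4 * s), Tf f F c y ≤ CE + 4 ^ n * volume.real (ball (0 : E n) 1) := by
  have h3 : ContinuousOn (fun y : E n => (‖y - c‖⁻¹) ^ n) (ann c s (4 * s)) := by
    refine ContinuousOn.pow (ContinuousOn.inv₀ (by fun_prop) fun y hy => ?_) n
    exact (lt_of_lt_of_le hs hy.1).ne'
  have h4 : IntegrableOn (fun y : E n => (‖y - c‖⁻¹) ^ n) (ann c s (4 * s)) :=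
    h3.integrableOn_compact (isCompact_ann c s (4 * s))
  refine ⟨h1.add h4, ?_⟩
  have h5 : ∫ y in ann c s (4 * s), Tf f F c y =
      (∫ y in ann c s (4 * s), (‖F y‖ / ‖f y - f c‖) ^ n) +
        ∫ y in ann c s (4 * s), (‖y - c‖⁻¹) ^ n := integral_add h1 h4
  have h6 : ∫ y in ann c s (4 * s), (‖y - c‖⁻¹) ^ n ≤
      (s⁻¹) ^ n * volume.real (ann c s (4 * s)) := by
    have h7 := norm_setIntegral_le_of_norm_le_const (μ := volume) (s := ann c s (4 * s))
      (f := fun y : E n => (‖y - c‖⁻¹) ^ n) (C := (s⁻¹) ^ n)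
      (isCompact_ann c s (4 * s)).measure_lt_top (fun y hy => by
        rw [Real.norm_of_nonneg (by positivity)]
        exact pow_le_pow_left₀ (by positivity) (inv_anti₀ hs hy.1) n)
    exact (le_abs_self _).trans h7
  have h8 : volume.real (ann c s (4 * s)) ≤ (4 * s) ^ n * volume.real (ball (0 : E n) 1) := by
    have h9 : volume.real (closedBall c (4 * s)) =
        (4 * s) ^ n * volume.real (ball (0 : E n) 1) := by
      rw [Measure.addHaar_real_closedBall _ _ (by positivity)]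
      simp
    rw [← h9]
    exact measureReal_mono (ann_subset_closedBall c s (4 * s))
      (isCompact_closedBall c (4 * s)).measure_lt_top.ne
  have h10 : (s⁻¹) ^ n * volume.real (ann c s (4 * s)) ≤
      4 ^ n * volume.real (ball (0 : E n) 1) := by
    calc (s⁻¹) ^ n * volume.real (ann c s (4 * s))
        ≤ (s⁻¹) ^ n * ((4 * s) ^ n * volume.real (ball (0 : E n) 1)) :=
          mul_le_mul_of_nonneg_left h8 (by positivity)
      _ = 4 ^ n * volume.real (ball (0 : E n) 1) := by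
          rw [← mul_assoc, ← mul_pow]
          congr 2
          field_simp
  rw [h5]
  linarith

theorem many {T : E n → ℝ} (hT : ∀ y, 0 ≤ T y) {CT R : ℝ} {c : E n}
    (h : ∀ s, 0 < s → closedBall c (100 * n * s) ⊆ ball 0 R →
      IntegrableOn T (ann c s (4 * s)) ∧ ∫ y in ann c s (4 * s), T y ≤ CT) (s : ℝ) (hs : 0 < s)
    (N : ℕ) : closedBall c (100 * n * (4 ^ N * s)) ⊆ ball 0 R →
      IntegrableOn T (ann c s (4 ^ (N + 1) * s)) ∧
        ∫ y in ann c s (4 ^ (N + 1) * s), T y ≤ (N + 1) * CT := by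
  induction N with
  | zero =>
    intro hb
    simpa using h s hs (by simpa using hb)
  | succ N ih =>
    intro hb
    have hp : (0 : ℝ) < 4 ^ N * s := by positivity
    obtain ⟨a1, a2⟩ := ih ((closedBall_subset_closedBall (by
      rw [pow_succ]
      have : (0 : ℝ) ≤ 100 * n := by positivity
      apply mul_le_mul_of_nonneg_left _ this
      nlinarith)).trans hb)
    obtain ⟨b1, b2⟩ := h (4 ^ (N + 1) * s) (by positivity) hb
    have hsub : ann c s (4 ^ (N + 1 + 1) * s) ⊆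
        ann c s (4 ^ (N + 1) * s) ∪ ann c (4 ^ (N + 1) * s) (4 * (4 ^ (N + 1) * s)) := by
      intro y hy
      rcases le_total ‖y - c‖ (4 ^ (N + 1) * s) with h1 | h1
      · exact Or.inl ⟨hy.1, h1⟩
      · refine Or.inr ⟨h1, hy.2.trans (le_of_eq ?_)⟩
        rw [pow_succ (4 : ℝ) (N + 1)]
        ring
    obtain ⟨c1, c2⟩ := int_union_le hT hsub a1 b1
    refine ⟨c1, c2.trans ?_⟩
    push_cast
    linarith

theorem wf_cont {R K : ℝ} {f : E n → E n} {F : E n → Mt n} {c : E n} (hL : Loc R K f F)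
    (hc : c ∈ ball (0 : E n) R) {A : Set (E n)} (hA : A ⊆ ball 0 R) (hcA : c ∉ A) :
    ContinuousOn (wf f c) A := by
  have h1 : ContinuousOn (fun y => f y - f c) A := (hL.cont.mono hA).sub continuousOn_const
  have h2 : ∀ y ∈ A, ‖f y - f c‖ ≠ 0 := fun y hy =>
    norm_ne_zero_iff.2 (hL.ne (hA hy) hc fun h => hcA (h ▸ hy))
  have h3 : ∀ y ∈ A, ‖y - c‖ ≠ 0 := fun y hy =>
    norm_ne_zero_iff.2 (sub_ne_zero.2 fun h => hcA (h ▸ hy))
  exact (h1.norm.log h2).sub (ContinuousOn.log (by fun_prop) h3)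

theorem norm_Gf_le (hn : 1 ≤ n) {CA : ℝ} (hadj : ∀ M : Mt n, ‖adjV M‖ ≤ CA * ‖M‖ ^ (n - 1))
    (f : E n → E n) (F : E n → Mt n) (c y : E n) (hz : f y - f c ≠ 0) (hy : y - c ≠ 0) :
    ‖Gf f F c y‖ ≤ CA * (‖F y‖ / ‖f y - f c‖) ^ (n - 1) + (‖y - c‖⁻¹) ^ (n - 1) := by
  obtain ⟨m, rfl⟩ : ∃ m, n = m + 1 := ⟨n - 1, by omega⟩
  have hz' : ‖f y - f c‖ ≠ 0 := norm_ne_zero_iff.2 hz
  have hy' : ‖y - c‖ ≠ 0 := norm_ne_zero_iff.2 hy
  have key : ∀ v : E (m + 1), ‖v‖ ≠ 0 → ‖(‖v‖ ^ (m + 1))⁻¹ • v‖ = (‖v‖⁻¹) ^ m := by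
    intro v hv
    rw [norm_smul, norm_inv, norm_pow, norm_norm, pow_succ, mul_inv, mul_assoc,
      inv_mul_cancel₀ hv, mul_one, inv_pow]
  unfold Gf
  refine (norm_sub_le _ _).trans ?_
  rw [key _ hy', Nat.add_sub_cancel]
  refine add_le_add ?_ le_rfl
  refine ((adjV (F y)).le_opNorm _).trans ?_
  rw [key _ hz']
  have h1 := hadj (F y)
  rw [Nat.add_sub_cancel] at h1
  calc ‖adjV (F y)‖ * (‖f y - f c‖⁻¹) ^ m ≤ CA * ‖F y‖ ^ m * (‖f y - f c‖⁻¹) ^ m :=
        mul_le_mul_of_nonneg_right h1 (by positivity)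
    _ = CA * (‖F y‖ / ‖f y - f c‖) ^ m := by
        rw [mul_assoc, ← mul_pow, div_eq_mul_inv]

theorem mixed (m : ℕ) {t r : ℝ} (ht : 0 ≤ t) (hr : 0 ≤ r) :
    t ^ m * r ≤ t ^ (m + 1) + r ^ (m + 1) := by
  rcases le_total t r with h | h
  · have h1 : t ^ m * r ≤ r ^ m * r := mul_le_mul_of_nonneg_right (pow_le_pow_left₀ ht h m) hr
    have h2 : 0 ≤ t ^ (m + 1) := by positivity
    rw [pow_succ r m]
    linarith
  · have h1 : t ^ m * r ≤ t ^ m * t := mul_le_mul_of_nonneg_left h (by positivity)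
    have h2 : 0 ≤ r ^ (m + 1) := by positivity
    rw [pow_succ t m]
    linarith

/-- on the boundary annulus -/
theorem pt_bd (hn : 1 ≤ n) {CA Cχ s : ℝ} (hCA : 0 ≤ CA) (hCχ : 0 ≤ Cχ) (hs : 0 < s)
    (hadj : ∀ M : Mt n, ‖adjV M‖ ≤ CA * ‖M‖ ^ (n - 1)) (f : E n → E n) (F : E n → Mt n)
    (c y : E n) (hz : f y - f c ≠ 0) (hy : y ∈ ann c s (2 * s)) (χ : E n → ℝ)
    (hχ : ‖fderiv ℝ χ y‖ ≤ Cχ / s) :
    |inner ℝ (Gf f F c y) (gr (fderiv ℝ χ y))| ≤ 2 * Cχ * (CA + 1) * Tf f F c y := by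
  have hρ : 0 < ‖y - c‖ := lt_of_lt_of_le hs hy.1
  have h1 := norm_Gf_le hn hadj f F c y hz (norm_pos_iff.1 hρ)
  have h2 : ‖fderiv ℝ χ y‖ ≤ 2 * Cχ * ‖y - c‖⁻¹ := by
    refine hχ.trans ?_
    rw [div_le_iff₀ hs]
    have h3 : 1 ≤ 2 * (‖y - c‖⁻¹ * s) := by
      rw [← mul_assoc, mul_comm (2 : ℝ), mul_assoc, inv_mul_eq_div, le_div_iff₀ hρ, one_mul]
      exact hy.2
    nlinarith
  set t := ‖F y‖ / ‖f y - f c‖ with ht
  set r := ‖y - c‖⁻¹ with hr
  have ht0 : 0 ≤ t := by positivity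
  have hr0 : 0 ≤ r := by positivity
  obtain ⟨m, rfl⟩ : ∃ m, n = m + 1 := ⟨n - 1, by omega⟩
  rw [Nat.add_sub_cancel] at h1
  have h4 := mixed m ht0 hr0
  have h5 : |inner ℝ (Gf f F c y) (gr (fderiv ℝ χ y))| ≤ (CA * t ^ m + r ^ m) * (2 * Cχ * r) := by
    refine (abs_real_inner_le_norm _ _).trans ?_
    rw [norm_gr]
    exact mul_le_mul h1 h2 (norm_nonneg _) (by positivity)
  refine h5.trans ?_
  unfold Tf
  rw [← ht, ← hr]
  have h6 : (CA * t ^ m + r ^ m) * (2 * Cχ * r) = 2 * Cχ * (CA * (t ^ m * r) + r ^ (m + 1)) := by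
    rw [pow_succ r m]
    ring
  rw [h6, mul_assoc (2 * Cχ)]
  refine mul_le_mul_of_nonneg_left ?_ (by positivity)
  have h7 : CA * (t ^ m * r) ≤ CA * (t ^ (m + 1) + r ^ (m + 1)) := mul_le_mul_of_nonneg_left h4 hCA
  have h8 : 0 ≤ t ^ (m + 1) := by positivity
  nlinarith

theorem fderiv_zero_in {χ : E n → ℝ} {c : E n} {s : ℝ} (h1 : ∀ y, ‖y - c‖ ≤ s → χ y = 1)
    {y : E n} (hy : ‖y - c‖ < s) : fderiv ℝ χ y = 0 := by
  have h2 : χ =ᶠ[𝓝 y] fun _ => 1 := by
    have : ball c s ∈ 𝓝 y := isOpen_ball.mem_nhds (by rwa [mem_ball, dist_eq_norm])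
    filter_upwards [this] with z hz
    rw [mem_ball, dist_eq_norm] at hz
    exact h1 z hz.le
  rw [h2.fderiv_eq]
  exact fderiv_const_apply _

theorem fderiv_zero_out {χ : E n → ℝ} {c : E n} {s : ℝ} (h : tsupport χ ⊆ closedBall c s)
    {y : E n} (hy : s < ‖y - c‖) : fderiv ℝ χ y = 0 := by
  have h1 : y ∉ tsupport χ := fun hc => by
    have := h hc
    rw [mem_closedBall, dist_eq_norm] at this
    linarith
  have h2 : χ =ᶠ[𝓝 y] fun _ => 0 := by
    have := (isClosed_tsupport χ).isOpen_compl.mem_nhds h1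
    filter_upwards [this] with z hz
    exact image_eq_zero_of_notMem_tsupport hz
  rw [h2.fderiv_eq]
  exact fderiv_const_apply _

/-- the boundary terms -/
theorem bdry (hn : 1 ≤ n) (hFL : Pool.Agent.SKQ.FLXStmt) {CA Cχ CT s o R K : ℝ} (hCA : 0 ≤ CA)
    (hCχ : 0 ≤ Cχ) (hs : 0 < s) (hadj : ∀ M : Mt n, ‖adjV M‖ ≤ CA * ‖M‖ ^ (n - 1))
    {f : E n → E n} {F : E n → Mt n} {c : E n} (hL : Loc R K f F)
    (hb : closedBall c (2 * s) ⊆ ball 0 R)
    (hT1 : IntegrableOn (Tf f F c) (ann c s (4 * s)))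
    (hT2 : ∫ y in ann c s (4 * s), Tf f F c y ≤ CT)
    (hosc : ∀ y ∈ ann c s (2 * s), ∀ y' ∈ ann c s (2 * s), |wf f c y - wf f c y'| ≤ o)
    {χ : E n → ℝ} (c1 : ContDiff ℝ (⊤ : ℕ∞) χ) (c3 : ∀ y, ‖y - c‖ ≤ s → χ y = 1)
    (c4 : tsupport χ ⊆ closedBall c (3 / 2 * s)) (c5 : ∀ y, ‖fderiv ℝ χ y‖ ≤ Cχ / s) :
    IntegrableOn (fun y => wf f c y * inner ℝ (Gf f F c y) (gr (fderiv ℝ χ y))) (ball 0 R) ∧
      |∫ y in ball 0 R, wf f c y * inner ℝ (Gf f F c y) (gr (fderiv ℝ χ y))| ≤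
        2 * Cχ * (CA + 1) * CT * o := by
  have hcb : c ∈ ball (0 : E n) R := hb (mem_closedBall_self (by positivity))
  have hsupp : tsupport χ ⊆ ball 0 R :=
    c4.trans ((closedBall_subset_closedBall (by linarith)).trans hb)
  have hcomp : HasCompactSupport χ :=
    HasCompactSupport.of_support_subset_isCompact (isCompact_closedBall c (3 / 2 * s))
      ((subset_tsupport _).trans c4)
  obtain ⟨i1, e1⟩ := hFL n R K s f F c χ hn hL hcb hs c1 hcomp hsupp (fun y hy => by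
    rw [mem_ball, dist_eq_norm] at hy
    rw [c3 y hy.le, c3 c (by rw [sub_self, norm_zero]; exact hs.le)])
  set g : E n → ℝ := fun y => inner ℝ (Gf f F c y) (gr (fderiv ℝ χ y)) with hg
  set A := ann c s (2 * s) with hA
  have hAm : MeasurableSet A := measurableSet_ann _ _ _
  have hAb : A ⊆ ball 0 R := (ann_subset_closedBall c s (2 * s)).trans hb
  have hz : ∀ y ∈ ball (0 : E n) R \ A, g y = 0 := by
    intro y hy
    have : fderiv ℝ χ y = 0 := by
      rcases lt_or_ge ‖y - c‖ s with h | h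
      · exact fderiv_zero_in c3 h
      · have : ¬ ‖y - c‖ ≤ 2 * s := fun h' => hy.2 ⟨h, h'⟩
        exact fderiv_zero_out c4 (by linarith)
    simp only [hg, this, gr_zero, inner_zero_right]
  have hgA : IntegrableOn g A := i1.mono_set hAb
  have hgA0 : ∫ y in A, g y = 0 := by
    rw [← setIntegral_eq_of_subset_of_forall_sdiff_eq_zero measurableSet_ball hAb hz]
    exact e1
  have hwc : ContinuousOn (wf f c) A := wf_cont hL hcb hAb (c_notin_ann hs)
  have hTA : IntegrableOn (Tf f F c) A := hT1.mono_set fun y hy => ⟨hy.1, by linarith [hy.2]⟩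
  have hTA2 : ∫ y in A, Tf f F c y ≤ CT := by
    refine le_trans (setIntegral_mono_set hT1 (Eventually.of_forall (Tf_nonneg f F c)) ?_) hT2
    exact HasSubset.Subset.eventuallyLE fun y hy => ⟨hy.1, by linarith [hy.2]⟩
  have hgT : ∫ y in A, |g y| ≤ 2 * Cχ * (CA + 1) * CT := by
    have h1 : ∫ y in A, |g y| ≤ ∫ y in A, 2 * Cχ * (CA + 1) * Tf f F c y := by
      refine setIntegral_mono_on hgA.abs (hTA.const_mul _) hAm fun y hy => ?_
      exact pt_bd hn hCA hCχ hs hadj f F c y (hL.ne (hAb hy) hcb fun h =>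
        c_notin_ann hs (h ▸ hy)) hy χ (c5 y)
    rw [integral_const_mul] at h1
    exact h1.trans (mul_le_mul_of_nonneg_left hTA2 (by positivity))
  have hCT : 0 ≤ 2 * Cχ * (CA + 1) * CT := (integral_nonneg fun y => abs_nonneg _).trans hgT
  -- a point of the annulus
  obtain ⟨y₀, hy₀⟩ : ∃ y₀, y₀ ∈ A := by
    refine ⟨c + s • EuclideanSpace.single ⟨0, by omega⟩ 1, ?_⟩
    have : ‖c + s • EuclideanSpace.single (⟨0, by omega⟩ : Fin n) (1 : ℝ) - c‖ = s := by
      rw [add_sub_cancel_left, norm_smul, EuclideanSpace.norm_single, Real.norm_of_nonneg hs.le]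
      simp
    exact ⟨this.ge, by rw [this]; linarith⟩
  have ho : 0 ≤ o := by simpa using hosc y₀ hy₀ y₀ hy₀
  -- integrability
  have hwg : IntegrableOn (fun y => wf f c y * g y) A := by
    have hm : AEStronglyMeasurable (fun y => wf f c y * g y) (volume.restrict A) :=
      (hwc.aestronglyMeasurable hAm).mul hgA.aestronglyMeasurable
    refine Integrable.mono' (hgA.abs.const_mul (o + |wf f c y₀|)) hm ?_
    filter_upwards [ae_restrict_mem hAm] with y hy
    rw [norm_mul, Real.norm_eq_abs, Real.norm_eq_abs]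
    refine mul_le_mul_of_nonneg_right ?_ (abs_nonneg _)
    have := hosc y hy y₀ hy₀
    have h3 : |wf f c y| ≤ |wf f c y - wf f c y₀| + |wf f c y₀| := by
      have := abs_add_le (wf f c y - wf f c y₀) (wf f c y₀)
      rwa [sub_add_cancel] at this
    linarith
  have hz2 : ∀ y ∈ ball (0 : E n) R \ A, wf f c y * g y = 0 := fun y hy => by
    rw [hz y hy, mul_zero]
  refine ⟨hwg.of_forall_diff_eq_zero measurableSet_ball hz2, ?_⟩
  have hE : ∫ y in ball 0 R, wf f c y * g y = ∫ y in A, wf f c y * g y :=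
    setIntegral_eq_of_subset_of_forall_sdiff_eq_zero measurableSet_ball hAb hz2
  have hE2 : ∫ y in A, wf f c y * g y = ∫ y in A, (wf f c y - wf f c y₀) * g y := by
    have : ∀ y, (wf f c y - wf f c y₀) * g y = wf f c y * g y - wf f c y₀ * g y := fun y => by
      ring
    simp_rw [this]
    rw [integral_sub hwg (hgA.const_mul _), integral_const_mul, hgA0, mul_zero, sub_zero]
  have hE3 : |∫ y in A, (wf f c y - wf f c y₀) * g y| ≤ ∫ y in A, o * |g y| := by
    rw [← Real.norm_eq_abs]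
    refine norm_integral_le_of_norm_le (hgA.abs.const_mul o) ?_
    filter_upwards [ae_restrict_mem hAm] with y hy
    rw [norm_mul, Real.norm_eq_abs, Real.norm_eq_abs]
    exact mul_le_mul_of_nonneg_right (hosc y hy y₀ hy₀) (abs_nonneg _)
  rw [integral_const_mul] at hE3
  show |∫ y in ball 0 R, wf f c y * g y| ≤ _
  rw [hE, hE2]
  refine hE3.trans ?_
  rw [mul_comm]
  exact mul_le_mul_of_nonneg_right hgT ho

/-- the pointwise inequality -/
theorem pt_alg (hn : 2 ≤ n) {c₀ η' ε : ℝ}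
    (hA : ∀ (M : Mt n) (z ζ : E n), ‖M‖ ^ n ≤ (1 + ε) * M.det → z ≠ 0 →
      c₀ * ‖(‖z‖ ^ 2)⁻¹ • (ContinuousLinearMap.adjoint M) z - ζ‖ ^ n ≤
        inner ℝ (adjV M ((‖z‖ ^ n)⁻¹ • z) - ‖ζ‖ ^ (n - 2) • ζ)
          ((‖z‖ ^ 2)⁻¹ • (ContinuousLinearMap.adjoint M) z - ζ) +
        η' * ((‖M‖ / ‖z‖) ^ n + ‖ζ‖ ^ n))
    (f : E n → E n) (F : E n → Mt n) (c y : E n) (hF : ‖F y‖ ^ n ≤ (1 + ε) * (F y).det)
    (hz : f y - f c ≠ 0) (hy : y - c ≠ 0) :
    c₀ * ‖Wf f F c y‖ ^ n ≤ inner ℝ (Gf f F c y) (Wf f F c y) + η' * Tf f F c y := by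
  have h1 := hA (F y) (f y - f c) ((‖y - c‖ ^ 2)⁻¹ • (y - c)) hF hz
  have hρ : ‖y - c‖ ≠ 0 := norm_ne_zero_iff.2 hy
  have h2 : ‖(‖y - c‖ ^ 2)⁻¹ • (y - c)‖ = ‖y - c‖⁻¹ := by
    rw [norm_smul, norm_inv, norm_pow, norm_norm, pow_two, mul_inv, mul_assoc,
      inv_mul_cancel₀ hρ, mul_one]
  have h3 : (‖y - c‖⁻¹) ^ (n - 2) • (‖y - c‖ ^ 2)⁻¹ • (y - c) = (‖y - c‖ ^ n)⁻¹ • (y - c) := by
    obtain ⟨m, rfl⟩ : ∃ m, n = m + 2 := ⟨n - 2, by omega⟩
    rw [smul_smul, Nat.add_sub_cancel, inv_pow, ← mul_inv, ← pow_add]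
  rw [h2, h3] at h1
  exact h1

/-- ES1 -/
theorem es1 (hFL : Pool.Agent.SKQ.FLXStmt) (hID : Pool.Agent.SKQ.IDWStmt)
    (hALG : Pool.Agent.SKQ.ALGStmt) (hADJ : Pool.Agent.SKQ.ADJStmt)
    (hENW : Pool.Agent.SKQ.ENWStmt) (hCUT : Pool.Agent.SKQ.CUTStmt) :
    Pool.Agent.SKQ.ES1Stmt := by
  intro n hn
  have hn1 : 1 ≤ n := by omega
  obtain ⟨c₀, hc₀, hAL⟩ := hALG n hn
  obtain ⟨CA, hCA, _, _, _, hadj, _, _⟩ := hADJ n hn1
  obtain ⟨CE, hCE, hEN⟩ := hENW n hn
  obtain ⟨Cχ, hCχ, hCU⟩ := hCUT n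
  set v := volume.real (ball (0 : E n) 1) with hv
  have hv0 : 0 ≤ v := measureReal_nonneg
  set CT := CE + 4 ^ n * v with hCT
  have hCT0 : 0 < CT := by positivity
  refine ⟨2 * Cχ * (CA + 1) * CT / c₀, by positivity, fun η hη => ?_⟩
  obtain ⟨ε, hε, hε1, hA⟩ := hAL (η * c₀ / (2 * CT)) (by positivity)
  refine ⟨ε, hε, hε1, ?_⟩
  intro R s₁ s₂ o₁ o₂ f F c hL hs₁ hs12 hb ho₁ ho₂
  have hs₂ : 0 < s₂ := by linarith
  have hn0 : (2 : ℝ) ≤ n := by exact_mod_cast hn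
  have hL2 : Loc R 2 f F := hL.mono (by linarith) (by linarith)
  have hball : ∀ ρ, ρ ≤ 400 * n * s₂ → closedBall c ρ ⊆ ball (0 : E n) R := fun ρ hρ =>
    (closedBall_subset_closedBall hρ).trans hb
  have hcb : c ∈ ball (0 : E n) R := hb (mem_closedBall_self (by positivity))
  have hann : ∀ s, 0 < s → closedBall c (100 * n * s) ⊆ ball (0 : E n) R →
      IntegrableOn (Tf f F c) (ann c s (4 * s)) ∧ ∫ y in ann c s (4 * s), Tf f F c y ≤ CT := by
    intro s hs hbs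
    obtain ⟨h1, h2⟩ := hEN R s f F c hL2 hs hbs
    exact one hs h1 h2
  obtain ⟨t1, t1'⟩ := hann s₁ hs₁ (hball _ (by nlinarith))
  obtain ⟨t2, t2'⟩ := hann s₂ hs₂ (hball _ (by nlinarith))
  obtain ⟨χ₁, a1, a2, a3, a4, a5⟩ := hCU c s₁ hs₁
  obtain ⟨χ₂, b1, b2, b3, b4, b5⟩ := hCU c s₂ hs₂
  obtain ⟨p1, p2⟩ := bdry hn1 hFL hCA.le hCχ.le hs₁ hadj hL (hball _ (by nlinarith)) t1 t1' ho₁
    a1 a3 a4 a5
  obtain ⟨q1, q2⟩ := bdry hn1 hFL hCA.le hCχ.le hs₂ hadj hL (hball _ (by nlinarith)) t2 t2' ho₂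
    b1 b3 b4 b5
  -- the difference of the cut-offs
  set χ : E n → ℝ := fun y => χ₂ y - χ₁ y with hχ
  have hχd : ContDiff ℝ (⊤ : ℕ∞) χ := b1.sub a1
  have hχz1 : ∀ y, ‖y - c‖ ≤ s₁ → χ y = 0 := fun y hy => by
    simp only [hχ]
    rw [a3 y hy, b3 y (by linarith), sub_self]
  have ha0 : ∀ y, 3 / 2 * s₁ < ‖y - c‖ → χ₁ y = 0 := fun y hy => by
    apply image_eq_zero_of_notMem_tsupport
    intro h
    have := a4 h
    rw [mem_closedBall, dist_eq_norm] at this
    linarith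
  have hb0 : ∀ y, 3 / 2 * s₂ < ‖y - c‖ → χ₂ y = 0 := fun y hy => by
    apply image_eq_zero_of_notMem_tsupport
    intro h
    have := b4 h
    rw [mem_closedBall, dist_eq_norm] at this
    linarith
  have hχz2 : ∀ y, 3 / 2 * s₂ < ‖y - c‖ → χ y = 0 := fun y hy => by
    simp only [hχ]
    rw [ha0 y (by linarith), hb0 y hy, sub_self]
  have hχ0 : ∀ y, 0 ≤ χ y := fun y => by
    simp only [hχ]
    rcases lt_or_ge (3 / 2 * s₁) ‖y - c‖ with h | h
    · rw [ha0 y h, sub_zero]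
      exact (b2 y).1
    · rw [b3 y (by linarith)]
      linarith [(a2 y).2]
  have hχ1 : ∀ y, χ y ≤ 1 := fun y => by
    simp only [hχ]
    linarith [(a2 y).1, (b2 y).2]
  have hχD : ∀ y ∈ ann c (2 * s₁) s₂, χ y = 1 := fun y hy => by
    simp only [hχ]
    rw [ha0 y (by linarith [hy.1]), b3 y hy.2, sub_zero]
  have hχs : tsupport χ ⊆ closedBall c (3 / 2 * s₂) := by
    refine closure_minimal (fun y hy => ?_) isClosed_closedBall
    by_contra h
    rw [mem_closedBall, dist_eq_norm, not_le] at h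
    exact hy (hχz2 y h)
  have hχc : HasCompactSupport χ :=
    HasCompactSupport.of_support_subset_isCompact (isCompact_closedBall c (3 / 2 * s₂))
      ((subset_tsupport _).trans hχs)
  have hcs : c ∉ tsupport χ := by
    rw [notMem_tsupport_iff_eventuallyEq]
    have : ball c s₁ ∈ 𝓝 c := ball_mem_nhds c hs₁
    filter_upwards [this] with y hy
    rw [mem_ball, dist_eq_norm] at hy
    exact hχz1 y hy.le
  obtain ⟨d1, d2⟩ := hID n R (1 + ε) f F c χ hn1 hL hcb hχd hχc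
    (hχs.trans (hball _ (by nlinarith))) hcs
  have hgrad : ∀ y, wf f c y * inner ℝ (Gf f F c y) (gr (fderiv ℝ χ y)) =
      wf f c y * inner ℝ (Gf f F c y) (gr (fderiv ℝ χ₂ y)) -
        wf f c y * inner ℝ (Gf f F c y) (gr (fderiv ℝ χ₁ y)) := by
    intro y
    have h1 : fderiv ℝ χ y = fderiv ℝ χ₂ y - fderiv ℝ χ₁ y :=
      fderiv_sub (b1.differentiable (by simp) y) (a1.differentiable (by simp) y)
    rw [h1, gr_sub, inner_sub_right, mul_sub]
  have hmain : ∫ y in ball 0 R, χ y * inner ℝ (Gf f F c y) (Wf f F c y) ≤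
      2 * Cχ * (CA + 1) * CT * (o₁ + o₂) := by
    rw [d2]
    simp_rw [hgrad]
    rw [integral_sub q1 p1]
    have := (abs_le.1 p2).2
    have := (abs_le.1 q2).1
    linarith
  -- the sum of the annuli
  have hx : 1 ≤ 2 * s₂ / s₁ := by
    rw [le_div_iff₀ hs₁]
    linarith
  obtain ⟨k, hk1, hk2⟩ := exists_nat_pow_near hx (show (1 : ℝ) < 4 by norm_num)
  rw [le_div_iff₀ hs₁] at hk1
  rw [div_lt_iff₀ hs₁] at hk2
  obtain ⟨m1, m2⟩ := many (Tf_nonneg f F c) hann s₁ hs₁ k (hball _ (by nlinarith))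
  have hlog4 : 1 ≤ Real.log 4 := by
    rw [Real.le_log_iff_exp_le (by norm_num)]
    linarith [Real.exp_one_lt_d9]
  have hlogs : 0 ≤ Real.log (s₂ / s₁) := Real.log_nonneg (by
    rw [le_div_iff₀ hs₁]
    linarith)
  have hkl : (k : ℝ) + 1 ≤ 2 * (1 + Real.log (s₂ / s₁)) := by
    have h1 : (k : ℝ) * Real.log 4 ≤ Real.log (2 * s₂ / s₁) := by
      rw [← Real.log_pow]
      refine Real.log_le_log (by positivity) ?_
      rw [le_div_iff₀ hs₁]
      exact hk1
    have h2 : Real.log (2 * s₂ / s₁) = Real.log 2 + Real.log (s₂ / s₁) := by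
      rw [mul_div_assoc, Real.log_mul (by norm_num) (by positivity)]
    have h3 : Real.log 2 ≤ 1 := by
      have := Real.log_two_lt_d9
      linarith
    have h4 : (k : ℝ) ≤ k * Real.log 4 := le_mul_of_one_le_right (Nat.cast_nonneg k) hlog4
    linarith
  set A' := ann c s₁ (2 * s₂) with hA'
  have hA'm : MeasurableSet A' := measurableSet_ann _ _ _
  have hA's : A' ⊆ ann c s₁ (4 ^ (k + 1) * s₁) := fun y hy => ⟨hy.1, hy.2.trans hk2.le⟩
  have hA'b : A' ⊆ ball 0 R :=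
    (ann_subset_closedBall c s₁ (2 * s₂)).trans (hball _ (by nlinarith))
  have hTA : IntegrableOn (Tf f F c) A' := m1.mono_set hA's
  have hTA2 : ∫ y in A', Tf f F c y ≤ 2 * (1 + Real.log (s₂ / s₁)) * CT := by
    refine (setIntegral_mono_set m1 (Eventually.of_forall (Tf_nonneg f F c))
      hA's.eventuallyLE).trans (m2.trans ?_)
    exact mul_le_mul_of_nonneg_right hkl hCT0.le
  set D := ann c (2 * s₁) s₂ with hD
  have hDm : MeasurableSet D := measurableSet_ann _ _ _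
  have hDA : D ⊆ A' := fun y hy => ⟨by linarith [hy.1], by linarith [hy.2]⟩
  have hDb : D ⊆ ball 0 R := hDA.trans hA'b
  set η' := η * c₀ / (2 * CT) with hη'
  have hη'0 : 0 < η' := by positivity
  set h : E n → ℝ := fun y => χ y * inner ℝ (Gf f F c y) (Wf f F c y) + η' * Tf f F c y with hh
  have hiA : IntegrableOn (fun y => χ y * inner ℝ (Gf f F c y) (Wf f F c y)) A' :=
    d1.mono_set hA'b
  have hint : IntegrableOn h A' := hiA.add (hTA.const_mul _)
  have hpt : ∀ᵐ y, y ∈ A' → χ y * (c₀ * ‖Wf f F c y‖ ^ n) ≤ h y := by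
    filter_upwards [hL.qc] with y hy hyA
    have hyc : y ≠ c := fun he => c_notin_ann hs₁ (he ▸ hyA)
    have h1 := pt_alg hn hA f F c y (hy (hA'b hyA)) (hL.ne (hA'b hyA) hcb hyc)
      (sub_ne_zero.2 hyc)
    have h2 := mul_le_mul_of_nonneg_left h1 (hχ0 y)
    have h3 : χ y * (η' * Tf f F c y) ≤ 1 * (η' * Tf f F c y) :=
      mul_le_mul_of_nonneg_right (hχ1 y) (mul_nonneg hη'0.le (Tf_nonneg f F c y))
    simp only [hh]
    rw [mul_add] at h2
    linarith
  have hh0 : 0 ≤ᵐ[volume.restrict A'] h := by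
    rw [EventuallyLE, ae_restrict_iff' hA'm]
    filter_upwards [hpt] with y hy hyA
    exact le_trans (mul_nonneg (hχ0 y) (by positivity)) (hy hyA)
  have hWD : ∀ᵐ y ∂(volume.restrict D), c₀ * ‖Wf f F c y‖ ^ n ≤ h y := by
    rw [ae_restrict_iff' hDm]
    filter_upwards [hpt] with y hy hyD
    have := hy (hDA hyD)
    rwa [hχD y hyD, one_mul] at this
  have hDc : IsCompact D := isCompact_ann _ _ _
  have hcD : c ∉ D := c_notin_ann (by linarith)
  have hWm : AEStronglyMeasurable (fun y => Wf f F c y) (volume.restrict D) := by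
    have hFm : AEStronglyMeasurable F (volume.restrict D) := (hL.sob D hDb hDc).meas
    have hfc : ContinuousOn (fun y => f y - f c) D := (hL.cont.mono hDb).sub continuousOn_const
    have hfm : AEStronglyMeasurable (fun y => f y - f c) (volume.restrict D) :=
      hfc.aestronglyMeasurable hDm
    have h1 : ContinuousOn (fun y => (‖f y - f c‖ ^ 2)⁻¹) D :=
      ContinuousOn.inv₀ (hfc.norm.pow 2) fun y hy =>
        pow_ne_zero 2 (norm_ne_zero_iff.2 (hL.ne (hDb hy) hcb fun he => hcD (he ▸ hy)))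
    have h2 : ContinuousOn (fun y : E n => (‖y - c‖ ^ 2)⁻¹ • (y - c)) D := by
      have h2a : ContinuousOn (fun y : E n => ‖y - c‖ ^ 2) D := by fun_prop
      have h2b : ContinuousOn (fun y : E n => y - c) D := by fun_prop
      exact (h2a.inv₀ fun y hy => pow_ne_zero 2 (norm_ne_zero_iff.2
        (sub_ne_zero.2 fun he => hcD (he ▸ hy)))).smul h2b
    have h3 : AEStronglyMeasurable (fun y => ContinuousLinearMap.adjoint (F y))
        (volume.restrict D) :=
      (ContinuousLinearMap.adjoint (𝕜 := ℝ) (E := E n) (F := E n)).continuous.comp_aestronglyMeasurable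
        hFm
    have h4 : AEStronglyMeasurable (fun y => (ContinuousLinearMap.adjoint (F y)) (f y - f c))
        (volume.restrict D) :=
      (isBoundedBilinearMap_apply (𝕜 := ℝ) (E := E n) (F := E n)).continuous.comp_aestronglyMeasurable
        (h3.prodMk hfm)
    exact ((h1.aestronglyMeasurable hDm).smul h4).sub (h2.aestronglyMeasurable hDm)
  have hWi : IntegrableOn (fun y => c₀ * ‖Wf f F c y‖ ^ n) D := by
    refine Integrable.mono' (hint.mono_set hDA) ((hWm.norm.pow n).const_mul c₀) ?_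
    filter_upwards [hWD] with y hy
    rwa [Real.norm_of_nonneg (by positivity)]
  have hWi' : IntegrableOn (fun y => ‖Wf f F c y‖ ^ n) D := by
    have := hWi.const_mul c₀⁻¹
    refine this.congr (Eventually.of_forall fun y => ?_)
    show c₀⁻¹ * (c₀ * ‖Wf f F c y‖ ^ n) = _
    rw [← mul_assoc, inv_mul_cancel₀ hc₀.ne', one_mul]
  refine ⟨hWi', ?_⟩
  have hfin : c₀ * ∫ y in D, ‖Wf f F c y‖ ^ n ≤
      2 * Cχ * (CA + 1) * CT * (o₁ + o₂) + η' * (2 * (1 + Real.log (s₂ / s₁)) * CT) := by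
    rw [← integral_const_mul]
    have e1 : ∫ y in D, c₀ * ‖Wf f F c y‖ ^ n ≤ ∫ y in D, h y :=
      integral_mono_ae hWi (hint.mono_set hDA) hWD
    have e2 : ∫ y in D, h y ≤ ∫ y in A', h y := setIntegral_mono_set hint hh0 hDA.eventuallyLE
    have e3 : ∫ y in A', h y = (∫ y in A', χ y * inner ℝ (Gf f F c y) (Wf f F c y)) +
        η' * ∫ y in A', Tf f F c y := by
      rw [← integral_const_mul]
      exact integral_add hiA (hTA.const_mul _)
    have e4 : ∫ y in ball 0 R, χ y * inner ℝ (Gf f F c y) (Wf f F c y) =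
        ∫ y in A', χ y * inner ℝ (Gf f F c y) (Wf f F c y) := by
      refine setIntegral_eq_of_subset_of_forall_sdiff_eq_zero measurableSet_ball hA'b fun y hy => ?_
      have : χ y = 0 := by
        rcases lt_or_ge ‖y - c‖ s₁ with h1 | h1
        · exact hχz1 y h1.le
        · have : ¬ ‖y - c‖ ≤ 2 * s₂ := fun h2 => hy.2 ⟨h1, h2⟩
          exact hχz2 y (by linarith)
      rw [this, zero_mul]
    have e5 : η' * ∫ y in A', Tf f F c y ≤ η' * (2 * (1 + Real.log (s₂ / s₁)) * CT) :=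
      mul_le_mul_of_nonneg_left hTA2 hη'0.le
    linarith
  have hη2 : η' * (2 * (1 + Real.log (s₂ / s₁)) * CT) = η * c₀ * (1 + Real.log (s₂ / s₁)) := by
    rw [hη']
    field_simp
  rw [hη2] at hfin
  have : ∫ y in D, ‖Wf f F c y‖ ^ n ≤
      (2 * Cχ * (CA + 1) * CT * (o₁ + o₂) + η * c₀ * (1 + Real.log (s₂ / s₁))) / c₀ := by
    rw [le_div_iff₀ hc₀]
    linarith
  refine this.trans (le_of_eq ?_)
  field_simp

end Pool.Agent.SKQ.H82E
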