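import Pool.Agent.SKQ.Kit

/-!
# SKQ, row QSY: quasisymmetry on spheres
-/

set_option autoImplicit false

namespace Pool.Agent.SKQ.H82Q

open Metric Set Filter Topology MeasureTheory
open Helper22QC

variable {n : ℕ}

/-- the sup norm distance -/
noncomputable def sd (p y : E n) : ℝ := ‖(fun i => y i - p i : Fin n → ℝ)‖

theorem sd_cont (p : E n) : Continuous (sd p) := by
  unfold sd
  exact continuous_norm.comp (continuous_pi fun i => by fun_prop)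

theorem sd_nonneg (p y : E n) : 0 ≤ sd p y := norm_nonneg _

theorem coord_le_sd (p y : E n) (i : Fin n) : |y i - p i| ≤ sd p y := by
  have := norm_le_pi_norm (fun i => y i - p i : Fin n → ℝ) i
  rwa [Real.norm_eq_abs] at this

theorem sd_le {p y : E n} {t : ℝ} (ht : 0 ≤ t) (h : ∀ i, |y i - p i| ≤ t) : sd p y ≤ t := by
  unfold sd
  rw [pi_norm_le_iff_of_nonneg ht]
  intro i
  rw [Real.norm_eq_abs]
  exact h i

theorem sd_le_norm (p y : E n) : sd p y ≤ ‖y - p‖ :=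
  sd_le (norm_nonneg _) fun i => by
    rw [← coord_sub]
    exact abs_coord_le _ i

theorem norm_le_sd (p y : E n) : ‖y - p‖ ≤ √n * sd p y :=
  norm_le_of_coord (sd_nonneg p y) fun i => by
    rw [coord_sub]
    exact coord_le_sd p y i

theorem mem_bcube_of_sd {p y : E n} {t : ℝ} (ht : 0 < t) (h : sd p y = t) : y ∈ bcube p t := by
  refine ⟨fun i => h ▸ coord_le_sd p y i, ?_⟩
  by_contra hcon
  push Not at hcon
  have h1 : sd p y < t := by
    unfold sd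
    rw [pi_norm_lt_iff ht]
    intro i
    rw [Real.norm_eq_abs]
    exact lt_of_le_of_ne (h ▸ coord_le_sd p y i) (hcon i)
  linarith

/-- a path which starts inside and ends outside (or conversely) meets the boundary of the cube -/
theorem cross {γ : ℝ → E n} (hγ : ContinuousOn γ (Icc 0 1)) {p : E n} {t a b : ℝ} (ht : 0 < t)
    (ha : a ∈ Icc (0 : ℝ) 1) (hb : b ∈ Icc (0 : ℝ) 1) (h1 : sd p (γ a) ≤ t)
    (h2 : t ≤ sd p (γ b)) : ∃ τ ∈ Icc (0 : ℝ) 1, γ τ ∈ bcube p t := by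
  have hc : ContinuousOn (fun τ => sd p (γ τ)) (Icc 0 1) :=
    (sd_cont p).comp_continuousOn hγ
  obtain ⟨τ, hτ, he⟩ := isPreconnected_Icc.intermediate_value ha hb hc ⟨h1, h2⟩
  exact ⟨τ, hτ, mem_bcube_of_sd ht he⟩

theorem grc_bound {Θ : E n → ℝ} (hΘ : ContDiff ℝ (⊤ : ℕ∞) Θ) (f : E n → E n) (F : E n → Mt n)
    (a y : E n) :
    ‖grc (fun q : E n × E n => Θ (q.2 - a)) f F y‖ ≤ ‖fderiv ℝ Θ (f y - a)‖ * ‖F y‖ := by
  have h1 : HasFDerivAt (fun q : E n × E n => Θ (q.2 - a))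
      ((fderiv ℝ Θ (f y - a)).comp (ContinuousLinearMap.snd ℝ (E n) (E n))) (y, f y) := by
    have h2 : HasFDerivAt (fun q : E n × E n => q.2 - a) (ContinuousLinearMap.snd ℝ (E n) (E n))
        (y, f y) := hasFDerivAt_snd.sub_const a
    have h3 : HasFDerivAt Θ (fderiv ℝ Θ (f y - a)) (f y - a) :=
      (hΘ.differentiable (by simp) _).hasFDerivAt
    exact h3.comp (y, f y) h2
  unfold grc
  rw [h1.fderiv, norm_gr]
  refine ContinuousLinearMap.opNorm_le_bound _ (by positivity) fun v => ?_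
  show ‖fderiv ℝ Θ (f y - a) (F y v)‖ ≤ _
  calc ‖fderiv ℝ Θ (f y - a) (F y v)‖ ≤ ‖fderiv ℝ Θ (f y - a)‖ * ‖F y v‖ :=
        ContinuousLinearMap.le_opNorm _ _
    _ ≤ ‖fderiv ℝ Θ (f y - a)‖ * (‖F y‖ * ‖v‖) :=
        mul_le_mul_of_nonneg_left (ContinuousLinearMap.le_opNorm _ _) (norm_nonneg _)
    _ = ‖fderiv ℝ Θ (f y - a)‖ * ‖F y‖ * ‖v‖ := by ring

/-- the chain -/
theorem chain (hINT : Pool.Agent.SKQ.INTStmt) (hn : 2 ≤ n) {u : E n → ℝ} {τ : E n → ℝ} {h w : ℝ}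
    (hh : 0 < h) (q : ℕ → E n) (N : ℕ) (hτ : ∀ k ≤ N, h ≤ τ (q k) ∧ τ (q k) ≤ 2 * h ∧
      ∀ x ∈ bcube (q k) (τ (q k)), ∀ y ∈ bcube (q k) (τ (q k)), |u x - u y| < w)
    (hq : ∀ k < N, q (k + 1) = q k ∨ ∃ δ : ℝ, h ≤ δ ∧ δ ≤ 2 * h ∧
      (∀ i, |q (k + 1) i - q k i| ≤ δ) ∧ ∃ i, |q (k + 1) i - q k i| = δ)
    (h0 : ∃ x ∈ bcube (q 0) (τ (q 0)), u x = 0) :
    ∀ k ≤ N, ∀ x ∈ bcube (q k) (τ (q k)), u x < (k + 1) * w := by
  have hw : 0 < w := by
    obtain ⟨x, hx, _⟩ := h0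
    have := (hτ 0 (Nat.zero_le _)).2.2 x hx x hx
    simpa using this
  intro k
  induction k with
  | zero =>
    intro _ x hx
    obtain ⟨x₀, hx₀, h1⟩ := h0
    have := (abs_lt.1 ((hτ 0 (Nat.zero_le _)).2.2 x hx x₀ hx₀)).2
    rw [h1] at this
    simpa using this
  | succ k ih =>
    intro hk x hx
    have ih' := ih (by omega)
    push_cast
    rcases hq k (by omega) with h1 | ⟨δ, d1, d2, d3, d4⟩
    · rw [h1] at hx
      have := ih' x hx
      linarith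
    · obtain ⟨a1, a2, a3⟩ := hτ k (by omega)
      obtain ⟨b1, b2, b3⟩ := hτ (k + 1) hk
      obtain ⟨x', hx1, hx2⟩ := hINT n (q k) (q (k + 1)) (τ (q k)) (τ (q (k + 1))) δ hn
        (by linarith) (by linarith) (by linarith) d3 d4 (by linarith) (by linarith) (by linarith)
      have c1 := ih' x' hx1
      have c2 := (abs_lt.1 (b3 x hx x' hx2)).2
      linarith

/-- the main step -/
theorem qsy_aux (hINT : Pool.Agent.SKQ.INTStmt) (hPA1 : Pool.Agent.SKQ.PA1Stmt)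
    (hPA2 : Pool.Agent.SKQ.PA2Stmt) (hn : 2 ≤ n) (N : ℕ)
    (hG : ∀ (c : E n) (a b h : ℝ), 0 < h → 8 * √n * h ≤ a → a ≤ b → b ≤ 2 * a → a ≤ 16 * n * h →
      ∀ p ∈ ann c a b, ∀ p' ∈ ann c a b,
      ∃ q : ℕ → E n, q 0 = p ∧ q N = p' ∧ ∀ k < N, q k ∈ ann c (3 / 4 * a) (5 / 4 * b) ∧
        (q (k + 1) = q k ∨ ∃ δ : ℝ, h ≤ δ ∧ δ ≤ 2 * h ∧ (∀ i, |q (k + 1) i - q k i| ≤ δ) ∧
          ∃ i, |q (k + 1) i - q k i| = δ))
    {R s K : ℝ} {f : E n → E n} {F : E n → Mt n} {c p q : E n} (hL : Loc R K f F) (hs : 0 < s)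
    (hb : closedBall c (20 * n * s) ⊆ ball 0 R) (hp : ‖p - c‖ = s) (hq : ‖q - c‖ = s)
    (hpm : ∀ y, ‖y - c‖ = s → ‖f p - f c‖ ≤ ‖f y - f c‖) {Θ : E n → ℝ}
    (hΘ0 : ∀ z, ‖z‖ ≤ ‖f p - f c‖ → Θ z = 0) (hΘ1 : ∀ z, ‖f q - f c‖ ≤ ‖z‖ → Θ z = 1)
    (hosc : ∀ (p' : E n) (a : ℝ), 0 < a → cube p' (2 * a) ⊆ closedBall c (19 * n * s) →
      ∃ t, a ≤ t ∧ t ≤ 2 * a ∧ ∀ x ∈ bcube p' t, ∀ y ∈ bcube p' t,
        |Θ (f x - f c) - Θ (f y - f c)| < 1 / (N + 4 : ℝ)) : False := by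
  have hn1 : 1 ≤ n := by omega
  have hn0 : (2 : ℝ) ≤ n := by exact_mod_cast hn
  have hsn : √(n : ℝ) ≤ n := by
    rw [Real.sqrt_le_left (by linarith)]
    nlinarith
  have hsq : √(n : ℝ) * √(n : ℝ) = n := Real.mul_self_sqrt (by linarith)
  have hs1 : 1 ≤ √(n : ℝ) := by
    rw [Real.one_le_sqrt]
    linarith
  set u : E n → ℝ := fun y => Θ (f y - f c) with hu
  set h := s / (16 * n) with hh
  have hh0 : 0 < h := by positivity
  have hhs : 16 * n * h = s := by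
    rw [hh]
    field_simp
  have hcube : ∀ (p' : E n) (a : ℝ), 0 < a → a ≤ s → ‖p' - c‖ ≤ 3 * s →
      cube p' (2 * a) ⊆ closedBall c (19 * n * s) := by
    intro p' a ha has hp'
    refine (cube_subset_closedBall p' (by linarith)).trans ?_
    refine closedBall_subset_closedBall' ?_
    rw [dist_eq_norm]
    have h1 : √(n : ℝ) * (2 * a) ≤ n * (2 * s) := by
      apply mul_le_mul hsn (by linarith) (by linarith) (by linarith)
    nlinarith
  -- the big cube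
  obtain ⟨t₀, t01, t02, t03⟩ := hosc c s hs (hcube c s hs le_rfl (by
    rw [sub_self, norm_zero]
    linarith))
  -- the small cubes
  have hchoice : ∀ p' : E n, ∃ t, ‖p' - c‖ ≤ 3 * s → h ≤ t ∧ t ≤ 2 * h ∧
      ∀ x ∈ bcube p' t, ∀ y ∈ bcube p' t, |u x - u y| < 1 / (N + 4 : ℝ) := by
    intro p'
    by_cases hp' : ‖p' - c‖ ≤ 3 * s
    · obtain ⟨t, h1, h2, h3⟩ := hosc p' h hh0 (hcube p' h hh0 (by nlinarith) hp')
      exact ⟨t, fun _ => ⟨h1, h2, h3⟩⟩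
    · exact ⟨0, fun h' => absurd h' hp'⟩
  choose τ hτ using hchoice
  -- the end point of the chain
  set z₀ : E n := c + t₀ • EuclideanSpace.single ⟨0, by omega⟩ 1 with hz₀
  have ht₀ : 0 < t₀ := by linarith
  have hz₀n : ‖z₀ - c‖ = t₀ := by
    rw [hz₀, add_sub_cancel_left, norm_smul, EuclideanSpace.norm_single,
      Real.norm_of_nonneg ht₀.le]
    simp
  have hz₀c : ∀ i, |c i - z₀ i| ≤ t₀ := by
    intro i
    rw [abs_sub_comm, ← coord_sub, ← hz₀n]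
    exact abs_coord_le _ i
  have hz₀e : ∃ i, |c i - z₀ i| = t₀ := by
    refine ⟨⟨0, by omega⟩, ?_⟩
    rw [abs_sub_comm, ← coord_sub, hz₀, add_sub_cancel_left]
    simp [abs_of_pos ht₀]
  obtain ⟨g, g0, gN, gk⟩ := hG c s (2 * s) h hh0 (by nlinarith) (by linarith) le_rfl hhs.ge p
    ⟨hp.ge, by linarith⟩ z₀ ⟨by linarith, by linarith⟩
  have hgn : ∀ k ≤ N, ‖g k - c‖ ≤ 3 * s := by
    intro k hk
    rcases Nat.lt_or_ge k N with h1 | h1
    · have := (gk k h1).1.2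
      linarith
    · have : k = N := by omega
      rw [this, gN, hz₀n]
      linarith
  -- the inner path
  obtain ⟨γ, γ1, γ2, γ3, γ4⟩ := hPA1 n R K s f F c p hn1 hL hs
    ((closedBall_subset_closedBall (by nlinarith)).trans hb) hp hpm
  obtain ⟨a1, a2, a3⟩ := hτ p (by linarith)
  obtain ⟨τ₁, hτ₁, hx₁⟩ := cross γ1 (p := p) (t := τ p) (a := 1) (b := 0) (by linarith)
    ⟨by norm_num, le_rfl⟩ ⟨le_rfl, by norm_num⟩ (by
      rw [γ3]
      refine (sd_le_norm p p).trans ?_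
      rw [sub_self, norm_zero]
      linarith) (by
      rw [γ2]
      have h1 := norm_le_sd p c
      rw [norm_sub_rev, hp] at h1
      have h2 : √(n : ℝ) * (2 * h) ≤ s := by nlinarith
      have h3 : √(n : ℝ) * (2 * h) ≤ √(n : ℝ) * sd p c := by linarith
      have h4 : 2 * h ≤ sd p c := le_of_mul_le_mul_left h3 (by linarith)
      linarith)
  have hu0 : u (γ τ₁) = 0 := hΘ0 _ (γ4 τ₁ hτ₁).2
  -- the outer path
  have hqc : q ≠ c := fun he => by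
    rw [he, sub_self, norm_zero] at hq
    linarith
  obtain ⟨ξ, ξ1, ξ2, ξ3, ξ4⟩ := hPA2 n R K (3 * n * s) f F c q hn1 hL (by positivity)
    ((closedBall_subset_closedBall (by nlinarith)).trans hb) hqc (by rw [hq]; nlinarith)
  obtain ⟨τ₂, hτ₂, hx₂⟩ := cross ξ1 (p := c) (t := t₀) (a := 0) (b := 1) ht₀
    ⟨le_rfl, by norm_num⟩ ⟨by norm_num, le_rfl⟩ (by
      rw [ξ2]
      refine (sd_le_norm c q).trans ?_
      rw [hq]
      exact t01) (by
      have h1 := norm_le_sd c (ξ 1)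
      rw [ξ3] at h1
      have h3 : √(n : ℝ) * (2 * s) ≤ √(n : ℝ) * sd c (ξ 1) := by nlinarith
      have h4 : 2 * s ≤ sd c (ξ 1) := le_of_mul_le_mul_left h3 (by linarith)
      linarith)
  have hu1 : u (ξ τ₂) = 1 := hΘ1 _ (ξ4 τ₂ hτ₂).2
  -- the chain
  have hch := chain hINT hn (u := u) (τ := τ) (w := 1 / (N + 4 : ℝ)) hh0 g N
    (fun k hk => hτ (g k) (hgn k hk)) (fun k hk => (gk k hk).2)
    ⟨γ τ₁, by rw [g0]; exact hx₁, hu0⟩ N le_rfl
  rw [gN] at hch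
  obtain ⟨b1, b2, b3⟩ := hτ z₀ (by rw [hz₀n]; linarith)
  obtain ⟨x, hx1, hx2⟩ := hINT n z₀ c (τ z₀) t₀ t₀ hn (by linarith) ht₀ ht₀ hz₀c hz₀e
    (by nlinarith) (by linarith) (by linarith)
  have e1 := hch x hx1
  have e2 := (abs_lt.1 (t03 (ξ τ₂) hx₂ x hx2)).2
  have e3 : (1 : ℝ) < (N + 1) * (1 / (N + 4 : ℝ)) + 1 / (N + 4 : ℝ) := by
    have : u (ξ τ₂) - u x < 1 / (N + 4 : ℝ) := e2
    rw [hu1] at this
    linarith
  have e4 : ((N : ℝ) + 1) * (1 / (N + 4 : ℝ)) + 1 / (N + 4 : ℝ) = (N + 2) / (N + 4) := by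
    field_simp
    ring
  rw [e4, lt_div_iff₀ (by positivity)] at e3
  linarith

/-- QSY -/
theorem qsy (hOSC : Pool.Agent.SKQ.OSCStmt) (hCHR : Pool.Agent.SKQ.CHRStmt)
    (hENE : Pool.Agent.SKQ.ENEStmt) (hTHT : Pool.Agent.SKQ.THTStmt)
    (hPA1 : Pool.Agent.SKQ.PA1Stmt) (hPA2 : Pool.Agent.SKQ.PA2Stmt)
    (hINT : Pool.Agent.SKQ.INTStmt) (hGEO : Pool.Agent.SKQ.GEOStmt) :
    Pool.Agent.SKQ.QSYStmt := by
  intro n hn
  have hn1 : 1 ≤ n := by omega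
  have hn0 : (2 : ℝ) ≤ n := by exact_mod_cast hn
  obtain ⟨CO, hCO, hO⟩ := hOSC n hn
  obtain ⟨CE, hCE, hE⟩ := hENE n hn1
  obtain ⟨CT, hCT, hT⟩ := hTHT
  obtain ⟨N, hG⟩ := hGEO n 2 (16 * n) hn (by norm_num) (by linarith)
  set Λ₀ : ℝ := 4 * CE * CT ^ n * CO * (N + 4) ^ n with hΛ₀
  refine ⟨Real.exp (max 1 Λ₀), Real.one_le_exp (by positivity), ?_⟩
  intro R s f F c hL hs hb y₀ y₀' hy₀ hy₀'
  have hcb : c ∈ ball (0 : E n) R := hb (mem_closedBall_self (by positivity))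
  have hS₀b : closedBall c (19 * n * s) ⊆ ball 0 R :=
    (closedBall_subset_closedBall (by nlinarith)).trans hb
  have hfc : ContinuousOn (fun y => f y - f c) (closedBall c (19 * n * s)) :=
    (hL.cont.mono hS₀b).sub continuousOn_const
  have hsph : sphere c s ⊆ closedBall c (19 * n * s) :=
    sphere_subset_closedBall.trans (closedBall_subset_closedBall (by nlinarith))
  have hsn : (sphere c s).Nonempty := ⟨y₀, by rw [mem_sphere, dist_eq_norm]; exact hy₀⟩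
  have hcn : ContinuousOn (fun y => ‖f y - f c‖) (sphere c s) := (hfc.mono hsph).norm
  obtain ⟨p, hp, hpm⟩ := (isCompact_sphere c s).exists_isMinOn hsn hcn
  obtain ⟨q, hq, hqm⟩ := (isCompact_sphere c s).exists_isMaxOn hsn hcn
  have hpm' : ∀ y, ‖y - c‖ = s → ‖f p - f c‖ ≤ ‖f y - f c‖ := fun y hy =>
    hpm (by rw [mem_sphere, dist_eq_norm]; exact hy)
  have hqm' : ∀ y, ‖y - c‖ = s → ‖f y - f c‖ ≤ ‖f q - f c‖ := fun y hy =>
    hqm (by rw [mem_sphere, dist_eq_norm]; exact hy)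
  rw [mem_sphere, dist_eq_norm] at hp hq
  have hpc : p ≠ c := fun he => by
    rw [he, sub_self, norm_zero] at hp
    linarith
  have hl0 : 0 < ‖f p - f c‖ := norm_pos_iff.2 (hL.ne (hS₀b (by
    rw [mem_closedBall, dist_eq_norm, hp]
    nlinarith)) hcb hpc)
  -- it is enough to bound the ratio
  suffices hmain : ‖f q - f c‖ ≤ Real.exp (max 1 Λ₀) * ‖f p - f c‖ by
    calc ‖f y₀ - f c‖ ≤ ‖f q - f c‖ := hqm' y₀ hy₀
      _ ≤ Real.exp (max 1 Λ₀) * ‖f p - f c‖ := hmain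
      _ ≤ Real.exp (max 1 Λ₀) * ‖f y₀' - f c‖ :=
          mul_le_mul_of_nonneg_left (hpm' y₀' hy₀') (Real.exp_pos _).le
  by_contra hcon
  rw [not_le] at hcon
  have hL0 : 0 < ‖f q - f c‖ := lt_of_lt_of_le hl0 (hpm' q hq)
  have hΛ : max 1 Λ₀ < Real.log ‖f q - f c‖ - Real.log ‖f p - f c‖ := by
    have h1 := Real.log_lt_log (by positivity) hcon
    rw [Real.log_mul (Real.exp_pos _).ne' hl0.ne', Real.log_exp] at h1
    linarith
  set Λ := Real.log ‖f q - f c‖ - Real.log ‖f p - f c‖ with hΛd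
  have hΛ1 : 1 < Λ := lt_of_le_of_lt (le_max_left _ _) hΛ
  have hΛ2 : Λ₀ < Λ := lt_of_le_of_lt (le_max_right _ _) hΛ
  have hΛ0 : 0 < Λ := by linarith
  have hlL : ‖f p - f c‖ < ‖f q - f c‖ := by
    by_contra h
    rw [not_lt] at h
    have := Real.log_le_log hL0 h
    linarith
  obtain ⟨Θ, T1, T2, T3, T4⟩ := hT n _ _ hl0 hlL
  refine qsy_aux hINT hPA1 hPA2 hn N hG hL hs hb hp hq hpm' T2 T3 ?_
  -- the energy
  set W := grc (fun q : E n × E n => Θ (q.2 - f c)) f F with hW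
  have hS₀c : IsCompact (closedBall c (19 * n * s)) := isCompact_closedBall _ _
  have hΨ : ContDiff ℝ (⊤ : ℕ∞) (fun q : E n × E n => Θ (q.2 - f c)) :=
    T1.comp (contDiff_snd.sub contDiff_const)
  have hAp : ApS (closedBall c (19 * n * s)) (fun y => Θ (f y - f c)) W :=
    hCHR n _ f F _ hn1 hS₀c (hL.sob _ hS₀b hS₀c) hΨ
  set S := closedBall c (19 * n * s) ∩
    (fun y => ‖f y - f c‖) ⁻¹' Icc ‖f p - f c‖ ‖f q - f c‖ with hS
  have hScl : IsClosed S := hfc.norm.preimage_isClosed_of_isClosed isClosed_closedBall isClosed_Icc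
  have hSc : IsCompact S := hS₀c.of_isClosed_subset hScl inter_subset_left
  obtain ⟨i1, i2⟩ := hE R 2 ‖f p - f c‖ ‖f q - f c‖ f F c S (by norm_num) hL hcb hSc
    (inter_subset_left.trans hS₀b) hl0 hlL.le fun y hy => hy.2
  rw [Real.log_div hL0.ne' hl0.ne', ← hΛd] at i2
  have hW0 : ∀ y ∈ closedBall c (19 * n * s) \ S, ‖W y‖ ^ n = 0 := by
    intro y hy
    have h1 : ‖f y - f c‖ < ‖f p - f c‖ ∨ ‖f q - f c‖ < ‖f y - f c‖ := by
      by_contra h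
      push Not at h
      exact hy.2 ⟨hy.1, h⟩
    have h2 := grc_bound T1 f F (f c) y
    rw [(T4 (f y - f c)).1 h1, norm_zero, zero_mul] at h2
    rw [hW, le_antisymm h2 (norm_nonneg _), zero_pow (by omega)]
  have hWS : ∀ y ∈ S, ‖W y‖ ^ n ≤ (CT / Λ) ^ n * (‖F y‖ / ‖f y - f c‖) ^ n := by
    intro y hy
    rw [← mul_pow]
    refine pow_le_pow_left₀ (norm_nonneg _) ?_ n
    have h1 : 0 < ‖f y - f c‖ := lt_of_lt_of_le hl0 hy.2.1
    have h2 : ‖fderiv ℝ Θ (f y - f c)‖ ≤ CT / Λ / ‖f y - f c‖ := by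
      rw [le_div_iff₀ h1, mul_comm]
      exact (T4 (f y - f c)).2
    calc ‖W y‖ ≤ ‖fderiv ℝ Θ (f y - f c)‖ * ‖F y‖ := grc_bound T1 f F (f c) y
      _ ≤ CT / Λ / ‖f y - f c‖ * ‖F y‖ := mul_le_mul_of_nonneg_right h2 (norm_nonneg _)
      _ = CT / Λ * (‖F y‖ / ‖f y - f c‖) := by ring
  have hEn : ∫ y in closedBall c (19 * n * s), ‖W y‖ ^ n ≤ 4 * CE * CT ^ n / Λ := by
    rw [setIntegral_eq_of_subset_of_forall_sdiff_eq_zero measurableSet_closedBall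
      (inter_subset_left : S ⊆ _) hW0]
    have h1 : ∫ y in S, ‖W y‖ ^ n ≤ ∫ y in S, (CT / Λ) ^ n * (‖F y‖ / ‖f y - f c‖) ^ n :=
      setIntegral_mono_on (hAp.int.mono_set inter_subset_left) (i1.const_mul _)
        hScl.measurableSet hWS
    rw [integral_const_mul] at h1
    have h2 : (CT / Λ) ^ n * ∫ y in S, (‖F y‖ / ‖f y - f c‖) ^ n ≤
        (CT / Λ) ^ n * (CE * 2 * (1 + Λ)) := mul_le_mul_of_nonneg_left i2 (by positivity)
    have h3 : (CT / Λ) ^ n * (CE * 2 * (1 + Λ)) ≤ 4 * CE * CT ^ n / Λ := by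
      rw [div_pow, div_mul_eq_mul_div, div_le_div_iff₀ (by positivity) hΛ0]
      have h4 : Λ ^ 2 ≤ Λ ^ n := pow_le_pow_right₀ hΛ1.le hn
      have h5 : (1 + Λ) * Λ ≤ 2 * Λ ^ n := by nlinarith
      calc CT ^ n * (CE * 2 * (1 + Λ)) * Λ = CT ^ n * CE * 2 * ((1 + Λ) * Λ) := by ring
        _ ≤ CT ^ n * CE * 2 * (2 * Λ ^ n) := mul_le_mul_of_nonneg_left h5 (by positivity)
        _ = 4 * CE * CT ^ n * Λ ^ n := by ring
    linarith
  -- oscillation on the boundaries of cubes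
  intro p' a ha hsub
  obtain ⟨t, t1, t2, t3⟩ := hO 1 (fun _ y => Θ (f y - f c)) (fun _ => W) p' a ha
    (fun _ => hAp.mono hS₀c hsub)
  refine ⟨t, t1, t2, fun x hx y hy => ?_⟩
  have h1 := t3 0 x hx y hy
  have h2 : ∫ z in cube p' (2 * a), ∑ _j : Fin 1, ‖W z‖ ^ n ≤ 4 * CE * CT ^ n / Λ := by
    simp only [Finset.univ_unique, Finset.sum_singleton]
    exact (setIntegral_mono_set hAp.int (Eventually.of_forall fun z => by positivity)
      hsub.eventuallyLE).trans hEn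
  refine lt_of_pow_lt_pow_left₀ n (by positivity) (lt_of_le_of_lt h1 ?_)
  refine lt_of_le_of_lt (mul_le_mul_of_nonneg_left h2 hCO.le) ?_
  rw [one_div, inv_pow, lt_inv_comm₀ (by positivity) (by positivity), ← one_div,
    lt_div_iff₀ (by positivity)]
  have h3 : (N + 4 : ℝ) ^ n * (CO * (4 * CE * CT ^ n / Λ)) = Λ₀ / Λ := by
    rw [hΛ₀]
    ring
  rw [h3, div_lt_one hΛ0]
  exact hΛ2

end Pool.Agent.SKQ.H82Q
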