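import Pool.Agent.Helper30_SKQ.ADJ
import Pool.Agent.Helper39_SKQ.NL0
import Pool.Agent.Helper25_SKQ.ALG
import Pool.Agent.Helper25_SKQ.GEO
import Pool.Agent.Helper25_SKQ.LEB
import Pool.Agent.Helper48_SKQ.LIM
import Pool.Agent.Helper10_SKQ.CHR
import Pool.Agent.Helper60_SKQ.Nlg
import Pool.Agent.Helper69_SKQ.IBP
import Pool.Agent.Helper69_SKQ.NLF
import Pool.Agent.Helper69_SKQ.STB
import Pool.Agent.Helper69_SKQ.NAF
import Pool.Agent.Helper97_SKQ.NLD
import Pool.Agent.Helper97_SKQ.LCG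
import Pool.Agent.Helper97_SKQ.GLB
import Pool.Agent.Helper86_SKQ.SMO
import Pool.Agent.Helper33_SKQ.FMO
import Pool.Agent.Helper33_SKQ.NIS
import Pool.Agent.Helper24_SKQ.OSS
import Pool.Agent.Helper14_SKQ.OSC
import Pool.Agent.Helper14_SKQ.THT
import Pool.Agent.Helper14_SKQ.CUT
import Pool.Agent.Helper14_SKQ.ENW
import Pool.Agent.Helper41_SKQ.PCR
import Pool.Agent.Helper41_SKQ.OSW
import Pool.Agent.Helper65_SKQ.INT
import Pool.Agent.Helper76_SKQ.DG1
import Pool.Agent.Helper9_SKQ.VOL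
import Pool.Agent.Helper9_SKQ.ENE
import Pool.Agent.Helper52_SKQ.MNO
import Pool.Agent.Helper52_SKQ.PA
import Pool.Agent.Helper77_SKQ.QSD
import Pool.Agent.Helper77_SKQ.FLX
import Pool.Agent.Helper90_SKQ.Idw
import Pool.Agent.Helper15_SKQ.SGN
import Pool.Agent.Helper82_SKQ.QSY
import Pool.Agent.Helper82_SKQ.ES1
import Pool.Agent.Helper82_SKQ.CLW

/-!
# SKQ: assembly
-/

set_option autoImplicit false

namespace Pool.Agent.SKQ.H82A

open Pool.Agent.SKQ

theorem nafAll (mol : MOLStmt)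
    (dg2 : OSCStmt → CHRStmt → LEBStmt → PCRStmt → ADJStmt → DG2Stmt) : NAFStmt := by
  have adj : ADJStmt := H30.adj
  have alg : ALGStmt := H25.alg adj
  have lim : LIMStmt := H48.lim
  have chr : CHRStmt := H10.chr
  have nl0 : NL0Stmt := H39.nl0
  have nlf : NLFStmt := H69N.nlf nl0 adj
  have nlg : NLGStmt := H60.nlg nlf lim adj
  have ibp : IBPStmt := H69I.ibp lim
  have nld : NLDStmt := H97.nld nlf adj lim
  have smo : SMOStmt := H86.smo
  have leb : LEBStmt := H25.leb
  have fmo : FMOStmt := H33.fmo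
  have oss : OSSStmt := H24.oss fmo
  have osc : OSCStmt := H14.osc oss
  have pcr : PCRStmt := H41.pcr
  have int : INTStmt := H65.int
  have geo : GEOStmt := H25.geo
  have tht : THTStmt := H14.tht
  have cut : CUTStmt := H14.cut
  have dg1 : DG1Stmt := H76.dg1 nlg
  have vol : VOLStmt := H9.vol
  have lcg : LCGStmt := H97.lcg
  have mno : MNOStmt := H52.mno
  have ene : ENEStmt := H9.ene
  have pa1 : PA1Stmt := H52.pa1
  have pa2 : PA2Stmt := H52.pa2
  have qsy : QSYStmt := H82Q.qsy osc chr ene tht pa1 pa2 int geo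
  have qsd : QSDStmt := H77.qsd qsy
  have enw : ENWStmt := H14.enw qsd ene
  have flx : FLXStmt := H77.flx nlg ibp smo
  have idw : IDWStmt := H90.idw nlg ibp smo
  have es1 : ES1Stmt := H82E.es1 flx idw alg adj enw cut
  have osw : OSWStmt := H41.osw osc chr smo int geo mno
  have clw : CLWStmt := H82.clw es1 osw qsd
  have nis : NISStmt := H33.nis
  have sgn : SGNStmt := H15.sgn adj nld
  have stb : STBStmt := H69.stb clw nis sgn
  have glb : GLBStmt := H97.glb mol dg1 (dg2 osc chr leb pcr adj) vol adj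
  exact H69A.naf stb glb lcg

end Pool.Agent.SKQ.H82A
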