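import Pool.Agent.SKQ.Stmts
import Pool.Agent.Helper22_QC.Naf
import Pool.Agent.Helper44_QC.Comp
import Pool.Agent.Helper44_QC.PartB

/-!
# SKQ: the final theorem from row NAF
-/

set_option autoImplicit false

namespace Pool.Agent.SKQ.H82F

open Pool.Agent.SKQ Helper22QC

/-- The homeomorphisms with approximants of uniformly bounded dilatation form a group which contains
all the generators; for `SmallOsc (ε H) H` maps the constant depends on `n` and `H` only. -/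
theorem fin' (hNAF : NAFStmt) (n : ℕ) (hn : 2 ≤ n) : ∃ κ : ℝ, 0 < κ ∧ ∃ ε : ℝ → ℝ, (∀ H, 0 < ε H) ∧
    (∀ H, ∃ K : ℝ, ∀ f : HB n, SmallOsc (ε H) H f → Approx K f) ∧
    ∃ G : Subgroup (HB n), (∀ f : HB n, f ∈ G ↔ ∃ K : ℝ, Approx K f) ∧
      (∀ f ∈ Gen n κ, f ∈ G) ∧ ∀ (H : ℝ) (f : HB n), SmallOsc (ε H) H f → f ∈ G := by
  obtain ⟨κ, hκ, hN⟩ := naf H44QC.ker H44QC.topM H44QC.detB n
  obtain ⟨G, hG⟩ := H44QC.group n
  have h1 : ∀ H : ℝ, ∃ ε : ℝ, 0 < ε ∧ ∀ f : HB n, SmallOsc ε H f → NearAffine κ (2 * H) f :=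
    fun H => hNAF n κ H hn hκ
  choose ε hε hεf using h1
  have h2 : ∀ H, ∃ K : ℝ, ∀ f : HB n, SmallOsc (ε H) H f → Approx K f := by
    intro H
    obtain ⟨K, hK⟩ := hN (2 * H)
    exact ⟨K, fun f hf => hK f (hεf H f hf)⟩
  refine ⟨κ, hκ, ε, hε, h2, G, hG, ?_, ?_⟩
  · rintro g (⟨δ, hδ, hg⟩ | ⟨H, hg⟩)
    · obtain ⟨K, hK⟩ := mono' n hn δ hδ
      exact (hG g).2 ⟨K, hK g hg⟩
    · obtain ⟨K, hK⟩ := hN H
      exact (hG g).2 ⟨K, hK g hg⟩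
  · intro H f hf
    obtain ⟨K, hK⟩ := h2 H
    exact (hG f).2 ⟨K, hK f hf⟩

theorem fin (hNAF : NAFStmt) : FINStmt := by
  intro n hn
  obtain ⟨κ, hκ, ε, hε, _, G, hG, h1, h2⟩ := fin' hNAF n hn
  refine ⟨κ, hκ, ε, hε, fun f hf => (hG f).1 ?_⟩
  have hle : Subgroup.closure (Gen n κ ∪ {f : HB n | ∃ H : ℝ, SmallOsc (ε H) H f}) ≤ G := by
    rw [Subgroup.closure_le]
    rintro g (hg | ⟨H, hg⟩)
    · exact h1 g hg
    · exact h2 H g hg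
  exact hle hf

end Pool.Agent.SKQ.H82F
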